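import Mathlib

set_option autoImplicit false

namespace Pool.Agent.Results.MP_dcc435_co.Yes

open Matrix

/-- `X` is a psd completion of the edge vector `x` (edge `i` joins `i` and `i + 1`). -/
def IsCompletion (x : Fin 5 → ℝ) (X : Matrix (Fin 5) (Fin 5) ℝ) : Prop :=
  X.PosSemidef ∧ (∀ i, X i i = 1) ∧ ∀ i, X i (i + 1) = x i

theorem oneD (a A b B : ℚ) (v : ℝ) (h1 : (v - a) ^ 2 ≤ A) (h2 : (v - b) ^ 2 ≤ B) :
    ∃ q : ℚ, ((q : ℝ) - a) ^ 2 ≤ A ∧ ((q : ℝ) - b) ^ 2 ≤ B := by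
  by_cases h3 : ((a : ℝ) - b) ^ 2 ≤ B
  · exact ⟨a, by simpa using (sq_nonneg _).trans h1, h3⟩
  by_cases h4 : ((b : ℝ) - a) ^ 2 ≤ A
  · exact ⟨b, h4, by simpa using (sq_nonneg _).trans h2⟩
  have hA := (sq_nonneg _).trans h1
  have hB := (sq_nonneg _).trans h2
  have hab : (b : ℝ) - a ≠ 0 := fun h => h4 (by rw [h]; simpa using hA)
  obtain ⟨q, hq⟩ : ∃ q : ℚ, 2 * ((b : ℝ) - a) * q = b ^ 2 - a ^ 2 + A - B :=
    ⟨(b ^ 2 - a ^ 2 + A - B) / (2 * (b - a)), by push_cast; field_simp⟩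
  push Not at h3 h4
  have h5 : 0 ≤ (q - a) * ((b : ℝ) - a) := by nlinarith
  have h6 : 0 ≤ (b - q) * ((b : ℝ) - a) := by nlinarith
  have h7 := pow_pos (abs_pos.2 hab) 2
  rw [sq_abs] at h7
  suffices ((q : ℝ) - a) ^ 2 ≤ A ∨ ((q : ℝ) - b) ^ 2 ≤ B from
    ⟨q, this.elim id fun h => by linarith, this.elim (fun h => by linarith) id⟩
  rcases le_total 0 ((v - q) * ((b : ℝ) - a)) with h | h
  · left
    refine le_trans (le_of_mul_le_mul_right ?_ h7) h1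
    nlinarith [mul_nonneg h h5, mul_nonneg h h]
  · right
    refine le_trans (le_of_mul_le_mul_right ?_ h7) h2
    nlinarith [mul_nonneg_of_nonpos_of_nonpos h h, mul_nonneg (neg_nonneg.2 h) h6]

theorem move {a A b B u : ℝ} (h1 : (u - a) ^ 2 ≤ A) (h2 : (u - b) ^ 2 < B) (h : u ≠ a) :
    ∃ u' ≠ u, (u' - a) ^ 2 ≤ A ∧ (u' - b) ^ 2 ≤ B := by
  have h3 : ∀ᶠ t in nhds (0 : ℝ), (u + t * (a - u) - b) ^ 2 < B :=
    ContinuousAt.eventually_lt (by fun_prop) continuousAt_const (by simpa using h2)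
  obtain ⟨t, h4, h5, h6⟩ :=
    ((h3.filter_mono nhdsWithin_le_nhds).and (Ioo_mem_nhdsGT (zero_lt_one' ℝ))).exists
  refine ⟨_, by simp [h5.ne', sub_eq_zero, h.symm], le_trans ?_ h1, h4.le⟩
  nlinarith [mul_nonneg (mul_pos h5 (by linarith : 0 < 2 - t)).le (sq_nonneg (u - a))]

/-- The feasible region for the two chords. -/
def S (a A b B c : ℚ) (u v : ℝ) : Prop :=
  (u - a) ^ 2 ≤ A ∧ (v - b) ^ 2 ≤ B ∧ (v - c * u) ^ 2 ≤ (1 - c ^ 2) * (1 - u ^ 2)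

theorem S.symm {a A b B c : ℚ} {u v : ℝ} (h : S a A b B c u v) : S b B a A c v u :=
  ⟨h.2.1, h.1, by linarith [h.2.2]⟩

theorem rat1 {a A b B c q : ℚ} {v : ℝ} (h : S a A b B c q v) : ∃ p q : ℚ, S a A b B c p q := by
  obtain ⟨r, h1, h2⟩ := oneD b B (c * q) ((1 - c ^ 2) * (1 - q ^ 2)) v h.2.1 (by simpa using h.2.2)
  exact ⟨q, r, h.1, h1, by simpa using h2⟩

theorem two {a A b B c : ℚ} (hc : (c : ℝ) ^ 2 ≤ 1) {u v u' v' : ℝ} (h : S a A b B c u v)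
    (h' : S a A b B c u' v') (hu : u' ≠ u) : ∃ p q : ℚ, S a A b B c p q := by
  wlog hl : u < u' generalizing u v u' v'
  · exact this h' h hu.symm (lt_of_le_of_ne (not_lt.1 hl) hu)
  obtain ⟨q, h1, h2⟩ := exists_rat_btwn hl
  obtain ⟨t, h3, h4, h5⟩ : ∃ t : ℝ, 0 ≤ t ∧ 0 ≤ 1 - t ∧ q = u + t * (u' - u) :=
    ⟨(q - u) / (u' - u), div_nonneg (by linarith) (by linarith),
      sub_nonneg.2 ((div_le_one (by linarith)).2 (by linarith)), by
        rw [div_mul_cancel₀ _ (sub_ne_zero.2 hu)]; ring⟩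
  have h6 := mul_nonneg h3 h4
  refine rat1 (q := q) (v := v + t * (v' - v)) ?_
  rw [h5]
  refine ⟨?_, ?_, ?_⟩
  · nlinarith [mul_nonneg h4 (sub_nonneg.2 h.1), mul_nonneg h3 (sub_nonneg.2 h'.1),
      mul_nonneg h6 (sq_nonneg (u' - u))]
  · nlinarith [mul_nonneg h4 (sub_nonneg.2 h.2.1), mul_nonneg h3 (sub_nonneg.2 h'.2.1),
      mul_nonneg h6 (sq_nonneg (v' - v))]
  · nlinarith [mul_nonneg h4 (sub_nonneg.2 h.2.2), mul_nonneg h3 (sub_nonneg.2 h'.2.2),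
      mul_nonneg h6 (sq_nonneg (v' - v - c * (u' - u))),
      mul_nonneg h6 (mul_nonneg (sub_nonneg.2 hc) (sq_nonneg (u' - u)))]

theorem tight {a A b B c : ℚ} (hc : (c : ℝ) ^ 2 < 1) {u v : ℝ} (h : S a A b B c u v)
    (hu : Irrational u) (hv : Irrational v) (hn : ¬∃ p q : ℚ, S a A b B c p q) :
    (u - a) ^ 2 = A ∧ (v - c * u) ^ 2 = (1 - c ^ 2) * (1 - u ^ 2) := by
  have h1 : (u - c * v) ^ 2 = (1 - c ^ 2) * (1 - v ^ 2) := by
    refine h.symm.2.2.eq_or_lt.resolve_right fun h1 => hn ?_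
    obtain ⟨u', h2, h3, h4⟩ := move h.1 h1 (hu.ne_rat a)
    exact two hc.le h (S.symm ⟨h.2.1, h3, h4⟩) h2
  refine ⟨h.1.eq_or_lt.resolve_right fun h2 => hn ?_, by linarith⟩
  obtain ⟨u', h2, h3, h4⟩ := move h1.le h2 fun h5 => by
    have : (v - 1) * (v + 1) = 0 := by
      refine (mul_eq_zero.1 (?_ : (1 - (c : ℝ) ^ 2) * _ = 0)).resolve_left (by linarith)
      rw [h5] at h1
      linarith
    rcases mul_eq_zero.1 this with h6 | h6
    · exact hv.ne_int 1 (by push_cast; linarith)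
    · exact hv.ne_int (-1) (by push_cast; linarith)
  exact two hc.le h (S.symm ⟨h.2.1, h4, h3⟩) h2

theorem exrat {a A b B c : ℚ} (hc : (c : ℝ) ^ 2 ≤ 1) {u v : ℝ} (h : S a A b B c u v) :
    ∃ p q : ℚ, S a A b B c p q := by
  rcases hc.eq_or_lt with h1 | h1
  · have h2 : v = c * u := by have := h.2.2; rw [h1] at this; nlinarith
    obtain ⟨q, h3, h4⟩ := oneD a A (c * b) B u h.1 (by
      have := h.2.1; push_cast; rw [h2] at this
      linear_combination this - (u ^ 2 - b ^ 2) * h1)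
    refine ⟨q, c * q, h3, ?_, by simp [h1]⟩
    push_cast at h4 ⊢
    linear_combination h4 + ((q : ℝ) ^ 2 - b ^ 2) * h1
  by_contra hn
  have hn' : ¬∃ p q : ℚ, S b B a A c p q := fun ⟨p, q, h⟩ => hn ⟨q, p, h.symm⟩
  have hu : Irrational u := fun ⟨q, hq⟩ => hn (rat1 (hq ▸ h))
  have hv : Irrational v := fun ⟨q, hq⟩ => hn' (rat1 (hq ▸ h.symm))
  obtain ⟨h2, h3⟩ := tight h1 h hu hv hn
  have h4 := (tight h1 h.symm hv hu hn').1
  obtain ⟨r, rfl⟩ : ∃ r, u = a + r := ⟨u - a, by ring⟩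
  obtain ⟨s, rfl⟩ : ∃ s, v = b + s := ⟨v - b, by ring⟩
  have hr : Irrational r := hu.of_ratCast_add a
  simp only [add_sub_cancel_left] at h2 h4
  obtain ⟨α, hα⟩ : ∃ α : ℚ, α = 1 - c ^ 2 - a ^ 2 - A - b ^ 2 - B + 2 * c * a * b := ⟨_, rfl⟩
  have e1 : (α : ℝ) + 2 * (c * b - a) * r = -(2 * (c * a - b) + 2 * c * r) * s := by
    rw [hα]; push_cast; linear_combination -h3 + h2 + h4
  have e2 : ((4 * α * (c * b - a) - 8 * c * (c * a - b) * B : ℚ) : ℝ) * r = ((4 * ((c * a - b) ^ 2 +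
      c ^ 2 * A) * B - α ^ 2 - 4 * (c * b - a) ^ 2 * A : ℚ) : ℝ) := by
    push_cast
    linear_combination ((α : ℝ) + 2 * (c * b - a) * r - (2 * (c * a - b) + 2 * c * r) * s) * e1 +
      (2 * (c * a - b) + 2 * c * r) ^ 2 * h4 + (4 * c ^ 2 * B - 4 * (c * b - a) ^ 2) * h2
  have e3 : (4 * α * (c * b - a) - 8 * c * (c * a - b) * B : ℚ) = 0 := by
    by_contra h0
    exact (hr.ratCast_mul h0).ne_rat _ e2
  have e4 := congrArg ((↑) : ℚ → ℝ) e3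
  push_cast at e4
  have e5 : ((α : ℝ) - 2 * (c * b - a) * r + (2 * (c * a - b) - 2 * c * r) * s) *
      ((α : ℝ) - 2 * (c * b - a) * r + (2 * (c * a - b) - 2 * c * r) * -s) = 0 := by
    linear_combination ((α : ℝ) + 2 * (c * b - a) * r - (2 * (c * a - b) + 2 * c * r) * s) * e1 -
      2 * r * e4 + 16 * c * (c * a - b) * r * h4
  have key : ∀ s' : ℝ, s' ^ 2 = B → (α : ℝ) - 2 * (c * b - a) * r + (2 * (c * a - b) - 2 * c * r) *
      s' = 0 → False := fun s' h5 h6 => by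
    rw [hα] at h6
    push_cast at h6
    exact hn (two hc h (u' := a - r) (v' := b + s') ⟨by linarith, by linarith, by nlinarith⟩
      fun h7 => hr.ne_zero (by linarith))
  exact (mul_eq_zero.1 e5).elim (key s h4) (key (-s) (by linarith))

theorem att (u x y : ℚ) (hx : x ^ 2 ≤ 1) (hu : u ^ 2 ≤ 1)
    (h : (u - x * y) ^ 2 ≤ (1 - x ^ 2) * (1 - y ^ 2)) :
    ∃ α β : ℚ, α + β * u = x ∧ α * u + β = y ∧ 0 ≤ 1 - α * x - β * y := by
  rcases hu.eq_or_lt with h1 | h1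
  · refine ⟨x, 0, by ring, ?_, by linarith⟩
    nlinarith [sq_nonneg (x * u - y)]
  have h2 : 0 < 1 - u ^ 2 := by linarith
  refine ⟨(x - u * y) / (1 - u ^ 2), (y - u * x) / (1 - u ^ 2), by field_simp; ring,
    by field_simp; ring, le_of_mul_le_mul_right ?_ h2⟩
  field_simp
  linarith

theorem result (x : Fin 5 → ℚ) (h : ∃ X, IsCompletion (fun i => x i) X) :
    ∃ X, IsCompletion (fun i => x i) X ∧ ∀ i j, ∃ q : ℚ, X i j = q := by
  obtain ⟨X, hX, h1, h2⟩ := h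
  beta_reduce at h2
  have sy : ∀ i j, X j i = X i j := fun i j => by simpa using hX.1.apply i j
  have d2 : ∀ i j, X i j ^ 2 ≤ 1 := fun i j => by
    have := (hX.submatrix ![i, j]).det_nonneg
    rw [det_fin_two] at this
    simp [h1, sy i j] at this
    linarith
  have d3 : ∀ i j k, (X i k - X i j * X j k) ^ 2 ≤ (1 - X i j ^ 2) * (1 - X j k ^ 2) :=
    fun i j k => by
      have := (hX.submatrix ![i, j, k]).det_nonneg
      rw [det_fin_three] at this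
      simp [h1, sy i j, sy i k, sy j k] at this
      linarith
  have hx : ∀ i, x i ^ 2 ≤ 1 := fun i => by
    have := d2 i (i + 1)
    rw [h2] at this
    exact_mod_cast this
  obtain ⟨u, v, s1, s2, s3⟩ := exrat (a := x 0 * x 1) (A := (1 - x 0 ^ 2) * (1 - x 1 ^ 2))
    (b := x 4 * x 3) (B := (1 - x 4 ^ 2) * (1 - x 3 ^ 2)) (c := x 2) (by exact_mod_cast hx 2)
    (u := X 0 2) (v := X 0 3) ⟨by simpa [← h2] using d3 0 1 2,
      by simpa [← h2, sy 4 0, sy 3 4] using d3 0 4 3,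
      by simpa [← h2, mul_comm] using d3 0 2 3⟩
  norm_cast at s1 s2 s3
  have sq : ∀ u x y : ℚ, x ^ 2 ≤ 1 → y ^ 2 ≤ 1 → (u - x * y) ^ 2 ≤ (1 - x ^ 2) * (1 - y ^ 2) →
      u ^ 2 ≤ 1 := fun u x y h1 h2 h3 => by
    have h4 := abs_le_of_sq_le_sq' (a := u - x * y) (b := 1 - x * y)
      (by nlinarith [sq_nonneg (x - y)]) (by nlinarith [sq_nonneg (x - y)])
    have h5 := abs_le_of_sq_le_sq' (a := u - x * y) (b := 1 + x * y)
      (by nlinarith [sq_nonneg (x + y)]) (by nlinarith [sq_nonneg (x + y)])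
    nlinarith
  have hu := sq _ _ _ (hx 0) (hx 1) s1
  have hv := sq _ _ _ (hx 4) (hx 3) s2
  obtain ⟨α, β, a1, a2, a3⟩ := att u _ _ (hx 0) hu s1
  obtain ⟨γ, δ, b1, b2, b3⟩ := att u v (x 2) hv hu (by linarith)
  obtain ⟨ε, ζ, c1, c2, c3⟩ := att v _ _ (hx 4) hv s2
  let L : Matrix (Fin 5) (Fin 5) ℚ := !![1, 0, 0, 0, 0; x 0, β, 1, 0, 0; u, 1, 0, 0, 0;
    v, δ, 0, 1, 0; x 4, ζ * δ, 0, ζ, 1]
  let D : Fin 5 → ℚ := ![1, 1 - u ^ 2, 1 - α * x 0 - β * x 1, 1 - γ * v - δ * x 2,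
    1 - ε * x 4 - ζ * x 3]
  have hD : ∀ i, 0 ≤ D i := fun i => by fin_cases i <;> simp [D, -sq_le_one_iff_abs_le_one] <;> linarith
  have hY : (∀ i, (L * diagonal D * Lᵀ) i i = 1) ∧ ∀ i, (L * diagonal D * Lᵀ) i (i + 1) = x i := by
    simp only [Fin.forall_fin_succ, mul_apply (N := Lᵀ), mul_diagonal, Fin.sum_univ_succ]
    simp [L, D]
    simp only [← a1, ← a2, ← b2, ← c1, ← c2, ← b1]
    refine ⟨⟨?_, ?_, ?_, ?_⟩, ?_, ?_, ?_⟩ <;> ring
  refine ⟨(L * diagonal D * Lᵀ).map (Rat.castHom ℝ), ⟨?_, fun i => by simp [hY.1],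
    fun i => by simp [hY.2]⟩, fun i j => ⟨_, rfl⟩⟩
  rw [Matrix.map_mul, Matrix.map_mul, diagonal_map (by simp), transpose_map]
  exact (PosSemidef.diagonal fun i => by simpa using hD i).mul_mul_conjTranspose_same _

end Pool.Agent.Results.MP_dcc435_co.Yes
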